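import Pool.Agent.Lib.MP_0fee77_co.Defs

set_option autoImplicit false

open SimpleGraph

namespace Pool.Agent.Lib.MP_0fee77_co

variable {V : Type}

/-- `f 0, f 1, ..., f k` is a path with `k` edges. -/
structure PathOf (G : SimpleGraph V) (f : ℕ → V) (k : ℕ) : Prop where
  adj : ∀ i, i < k → G.Adj (f i) (f (i + 1))
  inj : ∀ i j, i ≤ k → j ≤ k → f i = f j → i = j

lemma PathOf.mono {G H : SimpleGraph V} {f : ℕ → V} {k : ℕ} (h : PathOf G f k) (hle : G ≤ H) :
    PathOf H f k := ⟨fun i hi => hle (h.adj i hi), h.inj⟩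

lemma cycle_of_path {G : SimpleGraph V} {f : ℕ → V} {k : ℕ} (h : PathOf G f k)
    (hc : G.Adj (f k) (f 0)) : (cycleGraph (k + 1)).IsContained G := by
  refine ⟨⟨⟨fun i => f i.val, ?_⟩, ?_⟩⟩
  · have key : ∀ u v : Fin (k + 1), (u - v).val = 1 → G.Adj (f u.val) (f v.val) := by
      intro u v huv
      rcases le_or_gt v u with hle | hlt
      · rw [Fin.sub_val_of_le hle] at huv
        have h1 : u.val = v.val + 1 := by omega
        rw [h1]
        exact (h.adj v.val (by omega)).symm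
      · rw [Fin.coe_sub_iff_lt.mpr hlt] at huv
        have hv := v.isLt
        have h1 : u.val = 0 := by omega
        have h2 : v.val = k := by omega
        rw [h1, h2]
        exact hc.symm
    intro u v huv
    rcases cycleGraph_adj'.mp huv with h1 | h1
    · exact key u v h1
    · exact (key v u h1).symm
  · intro u v huv
    exact Fin.ext (h.inj _ _ (by omega) (by omega) huv)

lemma periodic_of_cycle {G : SimpleGraph V} {m : ℕ} (hm : 3 ≤ m)
    (h : (cycleGraph m).IsContained G) :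
    ∃ g : ℕ → V, (∀ i, G.Adj (g i) (g (i + 1))) ∧ (∀ i j, g i = g j ↔ i % m = j % m) := by
  obtain ⟨c⟩ := h
  have hpos : 0 < m := by omega
  refine ⟨fun i => c ⟨i % m, Nat.mod_lt _ hpos⟩, ?_, ?_⟩
  · intro i
    apply c.toHom.map_adj
    rw [cycleGraph_adj']
    right
    have hi := Nat.mod_lt i hpos
    have h1 : (i + 1) % m = (i % m + 1) % m := by simp
    rcases Nat.lt_or_ge (i % m + 1) m with h2 | h2
    · have h3 : (i + 1) % m = i % m + 1 := by rw [h1, Nat.mod_eq_of_lt h2]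
      rw [Fin.sub_val_of_le (by simp [Fin.le_def, h3])]
      simp [h3]
    · have h3 : (i + 1) % m = 0 := by
        rw [h1, show i % m + 1 = m by omega, Nat.mod_self]
      rw [Fin.coe_sub_iff_lt.mpr (by simp only [Fin.lt_def, h3]; omega)]
      simp only [h3]
      omega
  · intro i j
    constructor
    · intro hij
      have := c.injective hij
      exact congrArg Fin.val this
    · intro hij
      simp only [hij]

/-- In a saturated graph every non-adjacent pair is joined by a path whose length plus one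
lies in `I`. -/
lemma path_of_saturated {I : Set ℕ} (hI : ∀ m ∈ I, 3 ≤ m) {G : SimpleGraph V}
    (hG : IsSaturated I G) {x y : V} (hxy : x ≠ y) (hn : ¬ G.Adj x y) :
    ∃ (f : ℕ → V) (k : ℕ), PathOf G f k ∧ f 0 = x ∧ f k = y ∧ k + 1 ∈ I := by
  obtain ⟨m, hm, hc⟩ := hG.2 x y hxy hn
  have hm3 := hI m hm
  obtain ⟨g, hadj, hinj⟩ := periodic_of_cycle hm3 hc
  have hex : ∃ p, ¬ G.Adj (g p) (g (p + 1)) := by
    by_contra hcon
    push Not at hcon
    apply hG.1
    refine ⟨m, hm, ?_⟩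
    have hp : PathOf G g (m - 1) := by
      refine ⟨fun i _ => hcon i, fun i j hi hj hij => ?_⟩
      have := (hinj i j).mp hij
      rwa [Nat.mod_eq_of_lt (by omega), Nat.mod_eq_of_lt (by omega)] at this
    have h2 : G.Adj (g (m - 1)) (g 0) := by
      have h3 : g (m - 1 + 1) = g 0 := by
        rw [hinj, show m - 1 + 1 = m by omega]; simp
      rw [← h3]; exact hcon _
    have := cycle_of_path hp h2
    rwa [show m - 1 + 1 = m by omega] at this
  obtain ⟨p, hp⟩ := hex
  have hpe : (g p = x ∧ g (p + 1) = y) ∨ (g p = y ∧ g (p + 1) = x) := by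
    rcases hadj p with h | h
    · exact absurd h hp
    · exact ((edge_adj x y _ _).mp h).1
  have hinj' : ∀ i j, i ≤ m - 1 → j ≤ m - 1 → g (p + 1 + i) = g (p + 1 + j) → i = j := by
    intro i j hi hj hij
    have h1 : p + 1 + i ≡ p + 1 + j [MOD m] := (hinj _ _).mp hij
    have h2 := Nat.ModEq.add_left_cancel' _ h1
    exact Nat.ModEq.eq_of_lt_of_lt h2 (by omega) (by omega)
  have hlast : g (p + 1 + (m - 1)) = g p := by
    rw [hinj, show p + 1 + (m - 1) = p + m by omega]; simp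
  have hpath : PathOf G (fun i => g (p + 1 + i)) (m - 1) := by
    refine ⟨fun i hi => ?_, hinj'⟩
    rcases hadj (p + 1 + i) with h | h
    · exact h
    · exfalso
      have h1 := ((edge_adj x y _ _).mp h).1
      have e0 : g (p + 1) = g (p + 1 + 0) := rfl
      have e1 : g (p + 1 + i + 1) = g (p + 1 + (i + 1)) := rfl
      rcases hpe with ⟨ha, hb⟩ | ⟨ha, hb⟩ <;> rcases h1 with ⟨hc, hd⟩ | ⟨hc, hd⟩
      · have := hinj' i (m - 1) (by omega) le_rfl (by rw [hlast, ha, hc])
        omega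
      · have h5 := hinj' i 0 (by omega) (by omega) (by rw [← e0, hb, hc])
        have h6 := hinj' (i + 1) (m - 1) (by omega) le_rfl (by rw [hlast, ← e1, ha, hd])
        omega
      · have h5 := hinj' i 0 (by omega) (by omega) (by rw [← e0, hb, hc])
        have h6 := hinj' (i + 1) (m - 1) (by omega) le_rfl (by rw [hlast, ← e1, ha, hd])
        omega
      · have := hinj' i (m - 1) (by omega) le_rfl (by rw [hlast, ha, hc])
        omega
  rcases hpe with ⟨ha, hb⟩ | ⟨ha, hb⟩
  · refine ⟨fun i => g (p + 1 + (m - 1 - i)), m - 1, ⟨fun i hi => ?_, fun i j hi hj hij => ?_⟩,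
      ?_, ?_, ?_⟩
    · have := (hpath.adj (m - 1 - (i + 1)) (by omega)).symm
      rwa [show m - 1 - (i + 1) + 1 = m - 1 - i by omega] at this
    · have := hinj' _ _ (by omega) (by omega) hij
      omega
    · simp only [Nat.sub_zero]; rw [hlast, ha]
    · simp only [Nat.sub_self, Nat.add_zero]; exact hb
    · rwa [show m - 1 + 1 = m by omega]
  · refine ⟨fun i => g (p + 1 + i), m - 1, hpath, hb, ?_, ?_⟩
    · simp only []; rw [hlast, ha]
    · rwa [show m - 1 + 1 = m by omega]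

/-- Every free graph on a finite vertex set extends to a saturated graph. -/
lemma exists_saturated_ge [Finite V] (I : Set ℕ) (G0 : SimpleGraph V) (h0 : ¬ HasCycleIn I G0) :
    ∃ G : SimpleGraph V, G0 ≤ G ∧ IsSaturated I G := by
  have hfin : {G : SimpleGraph V | G0 ≤ G ∧ ¬ HasCycleIn I G}.Finite := Set.toFinite _
  obtain ⟨G, hG⟩ := hfin.exists_maximal ⟨G0, le_rfl, h0⟩
  refine ⟨G, hG.prop.1, hG.prop.2, fun x y hxy hn => ?_⟩
  by_contra hcon
  have h1 : G ⊔ edge x y ≤ G := hG.le_of_ge ⟨hG.prop.1.trans le_sup_left, hcon⟩ le_sup_left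
  exact hn (h1 (Or.inr ((edge_adj x y _ _).mpr ⟨Or.inl ⟨rfl, rfl⟩, hxy⟩)))

lemma not_hasCycleIn_bot {I : Set ℕ} (hI : ∀ m ∈ I, 3 ≤ m) :
    ¬ HasCycleIn I (⊥ : SimpleGraph V) := by
  rintro ⟨m, hm, hc⟩
  obtain ⟨g, hadj, -⟩ := periodic_of_cycle (hI m hm) hc
  exact hadj 0

lemma sat_le {n : ℕ} {I : Set ℕ} {G : SimpleGraph (Fin n)} (hG : IsSaturated I G) :
    sat n I ≤ G.edgeSet.ncard := Nat.sInf_le ⟨G, hG, rfl⟩

lemma exists_sat_eq (n : ℕ) {I : Set ℕ} (hI : ∀ m ∈ I, 3 ≤ m) :
    ∃ G : SimpleGraph (Fin n), IsSaturated I G ∧ G.edgeSet.ncard = sat n I := by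
  obtain ⟨G, -, hG⟩ := exists_saturated_ge I (⊥ : SimpleGraph (Fin n)) (not_hasCycleIn_bot hI)
  exact Nat.sInf_mem (s := {e : ℕ | ∃ G : SimpleGraph (Fin n),
    IsSaturated I G ∧ G.edgeSet.ncard = e}) ⟨_, G, hG, rfl⟩

end Pool.Agent.Lib.MP_0fee77_co
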