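import Mathlib

set_option autoImplicit false

open SimpleGraph

namespace Pool.Agent.Lib.MP_0fee77_co

/-- `G` has a (not necessarily induced) subgraph isomorphic to a cycle `C_m` with `m ∈ I`. -/
def HasCycleIn {V : Type} (I : Set ℕ) (G : SimpleGraph V) : Prop :=
  ∃ m ∈ I, (cycleGraph m).IsContained G

/-- `G` is `C_I`-saturated: it contains no `C_m` with `m ∈ I`, but adding any missing edge
creates one. -/
def IsSaturated {V : Type} (I : Set ℕ) (G : SimpleGraph V) : Prop :=
  ¬ HasCycleIn I G ∧ ∀ x y : V, x ≠ y → ¬ G.Adj x y → HasCycleIn I (G ⊔ edge x y)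

/-- The saturation number `sat(n, C_I)`: the least number of edges of a `C_I`-saturated graph
on `n` vertices. -/
noncomputable def sat (n : ℕ) (I : Set ℕ) : ℕ :=
  sInf {e : ℕ | ∃ G : SimpleGraph (Fin n), IsSaturated I G ∧ G.edgeSet.ncard = e}

end Pool.Agent.Lib.MP_0fee77_co
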