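import Pool.Agent.Lib.MP_0fee77_co.Basic

set_option autoImplicit false

open SimpleGraph Finset

namespace Pool.Agent.Lib.MP_0fee77_co

variable {V : Type}

/-- a vertex with at most one neighbour -/
def Leaf (G : SimpleGraph V) (v : V) : Prop := ∀ a b, G.Adj v a → G.Adj v b → a = b

section
variable {G : SimpleGraph V} {s : ℕ}

lemma long_path (hs : 4 ≤ s) (hG : IsSaturated (Set.Ici s) G) {x y : V} (hxy : x ≠ y)
    (hn : ¬ G.Adj x y) :
    ∃ (f : ℕ → V) (k : ℕ), PathOf G f k ∧ f 0 = x ∧ f k = y ∧ s ≤ k + 1 :=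
  path_of_saturated (fun m hm => by have : s ≤ m := hm; omega) hG hxy hn

lemma interior_not_leaf {f : ℕ → V} {k p : ℕ} (h : PathOf G f k) (h0 : 0 < p) (hk : p < k) :
    ¬ Leaf G (f p) := by
  intro hl
  have h1 := h.adj p hk
  have h2 := (h.adj (p - 1) (by omega)).symm
  rw [show p - 1 + 1 = p by omega] at h2
  have := h.inj _ _ (by omega) (by omega) (hl _ _ h1 h2)
  omega

lemma exists_nbr (hs : 4 ≤ s) (hG : IsSaturated (Set.Ici s) G) {x y : V} (hxy : x ≠ y) :
    ∃ w, G.Adj x w := by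
  by_cases hn : G.Adj x y
  · exact ⟨y, hn⟩
  · obtain ⟨f, k, hp, h0, -, hk⟩ := long_path hs hG hxy hn
    exact ⟨f 1, h0 ▸ hp.adj 0 (by omega)⟩

lemma leaf_unique (hs : 4 ≤ s) (hG : IsSaturated (Set.Ici s) G) {x y w : V}
    (hx : Leaf G x) (hy : Leaf G y) (hxw : G.Adj x w) (hyw : G.Adj y w) : x = y := by
  by_contra hxy
  have hn : ¬ G.Adj x y := by
    intro h
    have := hx _ _ h hxw
    rw [this] at hyw
    exact hyw.ne rfl
  obtain ⟨f, k, hp, h0, hk, hks⟩ := long_path hs hG hxy hn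
  have h1 : f 1 = w := hx _ _ (h0 ▸ hp.adj 0 (by omega)) hxw
  have h2 : f (k - 1) = w := by
    have h3 := (hp.adj (k - 1) (by omega)).symm
    rw [show k - 1 + 1 = k by omega, hk] at h3
    exact hy _ _ h3 hyw
  have := hp.inj 1 (k - 1) (by omega) (by omega) (h1.trans h2.symm)
  omega

lemma nbr_not_leaf (hs : 4 ≤ s) (hG : IsSaturated (Set.Ici s) G) {x w z : V}
    (hx : Leaf G x) (hxw : G.Adj x w) (hzx : z ≠ x) (hzw : z ≠ w) : ¬ Leaf G w := by
  have hn : ¬ G.Adj x z := fun h => hzw (hx _ _ h hxw)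
  obtain ⟨f, k, hp, h0, hk, hks⟩ := long_path hs hG hzx.symm hn
  have h1 : f 1 = w := hx _ _ (h0 ▸ hp.adj 0 (by omega)) hxw
  rw [← h1]
  exact interior_not_leaf hp (by omega) (by omega)

lemma two_nonleaf_nbrs (hs : 4 ≤ s) (hG : IsSaturated (Set.Ici s) G) {v : V}
    (hv : ¬ Leaf G v) :
    ∃ a b, a ≠ b ∧ G.Adj v a ∧ G.Adj v b ∧ ¬ Leaf G a ∧ ¬ Leaf G b := by
  have key : ∀ a b, a ≠ b → G.Adj v a → G.Adj v b → Leaf G a → ¬ Leaf G b →
      ∃ a b, a ≠ b ∧ G.Adj v a ∧ G.Adj v b ∧ ¬ Leaf G a ∧ ¬ Leaf G b := by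
    intro a b hab ha hb hla hlb
    have hn : ¬ G.Adj a b := by
      intro h
      exact hb.ne (hla _ _ ha.symm h)
    obtain ⟨f, k, hp, h0, hk, hks⟩ := long_path hs hG hab hn
    have h1 : f 1 = v := hla _ _ (h0 ▸ hp.adj 0 (by omega)) ha.symm
    refine ⟨b, f 2, ?_, hb, h1 ▸ hp.adj 1 (by omega), hlb,
      interior_not_leaf hp (by omega) (by omega)⟩
    intro h
    have := hp.inj k 2 le_rfl (by omega) (hk.trans h)
    omega
  unfold Leaf at hv
  push Not at hv
  obtain ⟨a, b, ha, hb, hab⟩ := hv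
  by_cases hla : Leaf G a
  · by_cases hlb : Leaf G b
    · exact absurd (leaf_unique hs hG hla hlb ha.symm hb.symm) hab
    · exact key a b hab ha hb hla hlb
  · by_cases hlb : Leaf G b
    · exact key b a (Ne.symm hab) hb ha hlb hla
    · exact ⟨a, b, hab, ha, hb, hla, hlb⟩

lemma adj_of_two (hs : 4 ≤ s) (hG : IsSaturated (Set.Ici s) G) {v y z : V} (hyz : y ≠ z)
    (hy : G.Adj v y) (hz : G.Adj v z) (hly : ¬ Leaf G y) (hlz : ¬ Leaf G z)
    (hall : ∀ u, G.Adj v u → ¬ Leaf G u → u = y ∨ u = z) : G.Adj y z := by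
  by_contra hn
  obtain ⟨f, k, hp, h0, hk, hks⟩ := long_path hs hG hyz hn
  have hnl : ∀ q, q ≤ k → ¬ Leaf G (f q) := by
    intro q hq
    rcases Nat.eq_zero_or_pos q with h | h
    · rw [h, h0]; exact hly
    · rcases hq.eq_or_lt with h' | h'
      · rw [h', hk]; exact hlz
      · exact interior_not_leaf hp h h'
  by_cases hv : ∃ p, p ≤ k ∧ f p = v
  · obtain ⟨p, hpk, hpv⟩ := hv
    have hp0 : p ≠ 0 := by
      rintro rfl
      exact hy.ne (hpv.symm.trans h0)
    have hpk' : p ≠ k := by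
      rintro rfl
      exact hz.ne (hpv.symm.trans hk)
    have a1 := hp.adj p (by omega)
    have a2 := (hp.adj (p - 1) (by omega)).symm
    rw [show p - 1 + 1 = p by omega] at a2
    rw [hpv] at a1 a2
    have b1 := hall _ a1 (hnl _ (by omega))
    have b2 := hall _ a2 (hnl _ (by omega))
    rw [← h0, ← hk] at b1 b2
    have c1 : p + 1 = 0 ∨ p + 1 = k :=
      b1.imp (hp.inj _ _ (by omega) (by omega)) (hp.inj _ _ (by omega) (by omega))
    have c2 : p - 1 = 0 ∨ p - 1 = k :=
      b2.imp (hp.inj _ _ (by omega) (by omega)) (hp.inj _ _ (by omega) (by omega))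
    omega
  · push Not at hv
    apply hG.1
    refine ⟨k + 1 + 1, by show s ≤ k + 1 + 1; omega, ?_⟩
    apply cycle_of_path (f := fun q => if q ≤ k then f q else v)
    · constructor
      · intro i hi
        by_cases h : i < k
        · rw [if_pos (by omega), if_pos (by omega)]; exact hp.adj i h
        · rw [if_pos (by omega), if_neg (by omega), show i = k by omega, hk]; exact hz.symm
      · intro i j hi hj hij
        by_cases h1 : i ≤ k <;> by_cases h2 : j ≤ k
        · rw [if_pos h1, if_pos h2] at hij; exact hp.inj _ _ h1 h2 hij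
        · rw [if_pos h1, if_neg h2] at hij; exact absurd hij (hv i h1)
        · rw [if_neg h1, if_pos h2] at hij; exact absurd hij.symm (hv j h2)
        · omega
    · rw [if_neg (by omega), if_pos (by omega), h0]; exact hy

lemma all_in_triangle (hs : 4 ≤ s) (hG : IsSaturated (Set.Ici s) G) {v y z : V}
    (hlv : ¬ Leaf G v)
    (hv : ∀ u, G.Adj v u → ¬ Leaf G u → u = y ∨ u = z)
    (hy : ∀ u, G.Adj y u → ¬ Leaf G u → u = v ∨ u = z)
    (hz : ∀ u, G.Adj z u → ¬ Leaf G u → u = v ∨ u = y) :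
    ∀ u, ¬ Leaf G u → u = v ∨ u = y ∨ u = z := by
  intro u hu
  by_contra hcon
  push Not at hcon
  have hn : ¬ G.Adj v u := by
    intro h
    rcases hv u h hu with h | h
    · exact hcon.2.1 h
    · exact hcon.2.2 h
  obtain ⟨f, k, hp, h0, hk, hks⟩ := long_path hs hG hcon.1.symm hn
  have hnl : ∀ q, q ≤ k → ¬ Leaf G (f q) := by
    intro q hq
    rcases Nat.eq_zero_or_pos q with h | h
    · rw [h, h0]; exact hlv
    · rcases hq.eq_or_lt with h' | h'
      · rw [h', hk]; exact hu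
      · exact interior_not_leaf hp h h'
  have hall : ∀ q, q ≤ k → f q = v ∨ f q = y ∨ f q = z := by
    intro q
    induction q with
    | zero => intro _; exact Or.inl h0
    | succ q ih =>
      intro hq
      have a := hp.adj q (by omega)
      have b := hnl _ hq
      rcases ih (by omega) with h | h | h <;> rw [h] at a
      · have := hv _ a b; tauto
      · have := hy _ a b; tauto
      · have := hz _ a b; tauto
  have := hall k le_rfl
  rw [hk] at this
  tauto

theorem lower_bound [Fintype V] (hs : 4 ≤ s) (hG : IsSaturated (Set.Ici s) G)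
    (hn : 7 ≤ Fintype.card V) : 17 * Fintype.card V ≤ 16 * G.edgeSet.ncard := by
  classical
  have hnb : ∀ x, ∃ w, G.Adj x w := by
    intro x
    obtain ⟨y, hy⟩ := Fintype.exists_ne_of_one_lt_card (by omega : 1 < Fintype.card V) x
    exact exists_nbr hs hG hy.symm
  choose nb hnb using hnb
  set Lf : Finset V := univ.filter (fun v => Leaf G v) with hLf
  set U : Finset V := univ.filter (fun v => ¬ Leaf G v) with hU
  have hcard : Lf.card + U.card = Fintype.card V := by
    rw [hLf, hU, card_filter_add_card_filter_not, card_univ]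
  have hnbU : ∀ x ∈ Lf, nb x ∈ U := by
    intro x hx
    have hx' : Leaf G x := (mem_filter.mp hx).2
    have h3 : ∃ z, z ≠ x ∧ z ≠ nb x := by
      by_contra hcon
      push Not at hcon
      have : (univ : Finset V) ⊆ {x, nb x} := by
        intro z _
        by_cases h : z = x
        · simp [h]
        · simp [hcon z h]
      have h4 := card_le_card this
      have h5 := card_le_two (a := x) (b := nb x)
      rw [card_univ] at h4
      omega
    obtain ⟨z, hz1, hz2⟩ := h3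
    exact mem_filter.mpr ⟨mem_univ _, nbr_not_leaf hs hG hx' (hnb x) hz1 hz2⟩
  have hinj : Set.InjOn nb Lf := by
    intro x hx y hy hxy
    exact leaf_unique hs hG (mem_filter.mp hx).2 (mem_filter.mp hy).2 (hnb x) (hxy ▸ hnb y)
  have hLU : Lf.card ≤ U.card := card_le_card_of_injOn nb hnbU hinj
  set D : V → Finset V := fun v => (G.neighborFinset v).filter (fun u => ¬ Leaf G u) with hD
  set Ln : V → Finset V := fun v => (G.neighborFinset v).filter (fun u => Leaf G u) with hLn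
  have hmemD : ∀ v u, u ∈ D v ↔ G.Adj v u ∧ ¬ Leaf G u := by
    intro v u; simp [hD]
  have hdeg : ∀ v, G.degree v = (Ln v).card + (D v).card := by
    intro v
    rw [hLn, hD, card_filter_add_card_filter_not]; rfl
  have hD2 : ∀ v ∈ U, 2 ≤ (D v).card := by
    intro v hv
    obtain ⟨a, b, hab, ha, hb, hla, hlb⟩ := two_nonleaf_nbrs hs hG (mem_filter.mp hv).2
    exact one_lt_card.mpr ⟨a, (hmemD _ _).mpr ⟨ha, hla⟩, b, (hmemD _ _).mpr ⟨hb, hlb⟩, hab⟩
  have hsumL : Lf.card ≤ ∑ v ∈ U, (Ln v).card := by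
    refine le_trans (card_le_card ?_) (card_biUnion_le (s := U) (t := Ln))
    intro x hx
    refine mem_biUnion.mpr ⟨nb x, hnbU x hx, ?_⟩
    simp only [hLn, mem_filter, mem_neighborFinset]
    exact ⟨(hnb x).symm, (mem_filter.mp hx).2⟩
  have hsumLf : Lf.card ≤ ∑ v ∈ Lf, G.degree v := by
    rw [card_eq_sum_ones]
    exact sum_le_sum fun v _ => (G.degree_pos_iff_exists_adj v).mpr ⟨_, hnb v⟩
  set U3 : Finset V := U.filter (fun v => 3 ≤ (D v).card) with hU3
  set U2 : Finset V := U.filter (fun v => ¬ 3 ≤ (D v).card) with hU2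
  have hU23 : U3.card + U2.card = U.card := by
    rw [hU3, hU2, card_filter_add_card_filter_not]
  have hpair : ∀ v a b, a ≠ b → a ∈ D v → b ∈ D v → ¬ 3 ≤ (D v).card →
      ∀ u, G.Adj v u → ¬ Leaf G u → u = a ∨ u = b := by
    intro v a b hab ha hb h3 u hu hlu
    by_contra hcon
    push Not at hcon
    apply h3
    exact two_lt_card_iff.mpr ⟨u, a, b, (hmemD _ _).mpr ⟨hu, hlu⟩, ha, hb, hcon.1, hcon.2, hab⟩
  have hU2nb : U2 ⊆ U3.biUnion D := by
    intro v hv
    obtain ⟨hvU, hv3⟩ := mem_filter.mp hv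
    have hlv : ¬ Leaf G v := (mem_filter.mp hvU).2
    obtain ⟨y, z, hyz, hy, hz, hly, hlz⟩ := two_nonleaf_nbrs hs hG hlv
    have hv' := hpair v y z hyz ((hmemD _ _).mpr ⟨hy, hly⟩) ((hmemD _ _).mpr ⟨hz, hlz⟩) hv3
    have hadj := adj_of_two hs hG hyz hy hz hly hlz hv'
    by_cases hy3 : 3 ≤ (D y).card
    · exact mem_biUnion.mpr ⟨y, mem_filter.mpr ⟨mem_filter.mpr ⟨mem_univ _, hly⟩, hy3⟩,
        (hmemD _ _).mpr ⟨hy.symm, hlv⟩⟩
    by_cases hz3 : 3 ≤ (D z).card
    · exact mem_biUnion.mpr ⟨z, mem_filter.mpr ⟨mem_filter.mpr ⟨mem_univ _, hlz⟩, hz3⟩,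
        (hmemD _ _).mpr ⟨hz.symm, hlv⟩⟩
    exfalso
    have hy' := hpair y v z hz.ne ((hmemD _ _).mpr ⟨hy.symm, hlv⟩)
      ((hmemD _ _).mpr ⟨hadj, hlz⟩) hy3
    have hz' := hpair z v y hy.ne ((hmemD _ _).mpr ⟨hz.symm, hlv⟩)
      ((hmemD _ _).mpr ⟨hadj.symm, hly⟩) hz3
    have hall := all_in_triangle hs hG hlv hv' hy' hz'
    have hsub : U ⊆ {v, y, z} := by
      intro u hu
      have := hall u (mem_filter.mp hu).2
      simpa using this
    have h4 := card_le_card hsub
    have h5 := card_le_three (a := v) (b := y) (c := z)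
    omega
  have hA : U2.card ≤ ∑ v ∈ U3, (D v).card :=
    le_trans (card_le_card hU2nb) card_biUnion_le
  have hA3 : 3 * U3.card ≤ ∑ v ∈ U3, (D v).card := by
    rw [mul_comm]
    exact card_nsmul_le_sum U3 _ 3 fun v hv => (mem_filter.mp hv).2
  have hB : 2 * U2.card ≤ ∑ v ∈ U2, (D v).card := by
    rw [mul_comm]
    exact card_nsmul_le_sum U2 _ 2 fun v hv => hD2 v (mem_filter.mp hv).1
  have hsplit : ∑ v ∈ U3, (D v).card + ∑ v ∈ U2, (D v).card = ∑ v ∈ U, (D v).card := by
    rw [hU3, hU2, sum_filter_add_sum_filter_not]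
  have hsplit2 : ∑ v ∈ Lf, G.degree v + ∑ v ∈ U, G.degree v = ∑ v, G.degree v := by
    rw [hLf, hU, sum_filter_add_sum_filter_not]
  have hsplit3 : ∑ v ∈ U, G.degree v = ∑ v ∈ U, (Ln v).card + ∑ v ∈ U, (D v).card := by
    rw [← sum_add_distrib]
    exact sum_congr rfl fun v _ => hdeg v
  have hhand := G.sum_degrees_eq_twice_card_edges
  have hnc : G.edgeSet.ncard = G.edgeFinset.card := by
    rw [← G.coe_edgeFinset, Set.ncard_coe_finset]
  rw [hnc]
  omega

end

end Pool.Agent.Lib.MP_0fee77_co
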