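import Pool.Agent.Lib.MP_0fee77_co.Basic

set_option autoImplicit false

open SimpleGraph Finset

namespace Pool.Agent.Lib.MP_0fee77_co

variable {V : Type}

/-- `vt i j` is the `j`-th vertex of the `i`-th path of a generalised theta graph -/
structure Theta (m : ℕ) (len : ℕ → ℕ) (vt : ℕ → ℕ → V) : Prop where
  two : ∀ i, i < m → 2 ≤ len i
  zero : ∀ i i', i < m → i' < m → vt i 0 = vt i' 0
  last : ∀ i i', i < m → i' < m → vt i (len i) = vt i' (len i')
  inj : ∀ i j i' j', i < m → i' < m → j ≤ len i → j' ≤ len i' → vt i j = vt i' j' →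
    (j = 0 ∧ j' = 0) ∨ (j = len i ∧ j' = len i') ∨ (i = i' ∧ j = j')
  surj : ∀ v, ∃ i j, i < m ∧ j ≤ len i ∧ v = vt i j

def thetaGraph (m : ℕ) (len : ℕ → ℕ) (vt : ℕ → ℕ → V) : SimpleGraph V :=
  fromRel (fun u v => ∃ i j, i < m ∧ j < len i ∧ u = vt i j ∧ v = vt i (j + 1))

section
variable {m : ℕ} {len : ℕ → ℕ} {vt : ℕ → ℕ → V}

lemma Theta.adj (h : Theta m len vt) {i j : ℕ} (hi : i < m) (hj : j < len i) :
    (thetaGraph m len vt).Adj (vt i j) (vt i (j + 1)) := by
  rw [thetaGraph, fromRel_adj]
  refine ⟨fun he => ?_, Or.inl ⟨i, j, hi, hj, rfl, rfl⟩⟩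
  have := h.inj _ _ _ _ hi hi (by omega) (by omega) he
  omega

lemma theta_adj_cases {u v : V} (h : (thetaGraph m len vt).Adj u v) :
    ∃ i j, i < m ∧ j < len i ∧
      ((u = vt i j ∧ v = vt i (j + 1)) ∨ (v = vt i j ∧ u = vt i (j + 1))) := by
  rw [thetaGraph, fromRel_adj] at h
  rcases h.2 with ⟨i, j, hi, hj, h1, h2⟩ | ⟨i, j, hi, hj, h1, h2⟩
  · exact ⟨i, j, hi, hj, Or.inl ⟨h1, h2⟩⟩
  · exact ⟨i, j, hi, hj, Or.inr ⟨h1, h2⟩⟩

lemma Theta.free (h : Theta m len vt) {s r : ℕ} (hs : 3 ≤ s)
    (hlen : ∀ i i', i < m → i' < m → i ≠ i' → r + 1 ≤ len i + len i') :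
    ¬ HasCycleIn (Set.Icc s r) (thetaGraph m len vt) := by
  classical
  rintro ⟨c, ⟨hc1, hc2⟩, hc⟩
  obtain ⟨g, hadj, hinj⟩ := periodic_of_cycle (by omega) hc
  set P : V → Prop := fun v => ∃ k, g k = v with hP
  have htwo : ∀ v, P v → ∃ a b, a ≠ b ∧ (thetaGraph m len vt).Adj v a ∧
      (thetaGraph m len vt).Adj v b ∧ P a ∧ P b := by
    rintro v ⟨k, rfl⟩
    refine ⟨g (k + 1), g (k + (c - 1)), ?_, hadj k, ?_, ⟨_, rfl⟩, ⟨_, rfl⟩⟩
    · intro he
      have h1 : k + 1 ≡ k + (c - 1) [MOD c] := (hinj _ _).mp he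
      have h2 := Nat.ModEq.eq_of_lt_of_lt (Nat.ModEq.add_left_cancel' _ h1) (by omega) (by omega)
      omega
    · have h1 : g (k + (c - 1) + 1) = g k := by
        rw [hinj, show k + (c - 1) + 1 = k + c by omega]; simp
      rw [← h1]; exact (hadj _).symm
  have hstep : ∀ i j, i < m → 0 < j → j < len i → P (vt i j) →
      P (vt i (j - 1)) ∧ P (vt i (j + 1)) := by
    intro i j hi h0 hj hp
    have hn : ∀ u, (thetaGraph m len vt).Adj (vt i j) u →
        u = vt i (j - 1) ∨ u = vt i (j + 1) := by
      intro u hu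
      obtain ⟨i', j', hi', hj', ⟨h1, h2⟩ | ⟨h1, h2⟩⟩ := theta_adj_cases hu
      · have := h.inj _ _ _ _ hi hi' (by omega) (by omega) h1
        obtain ⟨rfl, rfl⟩ : i = i' ∧ j = j' := by omega
        exact Or.inr h2
      · have := h.inj _ _ _ _ hi hi' (by omega) (by omega) h2
        obtain ⟨rfl, rfl⟩ : i = i' ∧ j = j' + 1 := by omega
        exact Or.inl (by simpa using h1)
    obtain ⟨a, b, hab, ha, hb, hpa, hpb⟩ := htwo _ hp
    rcases hn a ha with h1 | h1 <;> rcases hn b hb with h2 | h2
    · exact absurd (h1.trans h2.symm) hab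
    · exact ⟨h1 ▸ hpa, h2 ▸ hpb⟩
    · exact ⟨h2 ▸ hpb, h1 ▸ hpa⟩
    · exact absurd (h1.trans h2.symm) hab
  have hwhole : ∀ i j, i < m → 0 < j → j < len i → P (vt i j) →
      ∀ j', j' ≤ len i → P (vt i j') := by
    intro i j hi h0 hj hp
    have hup : ∀ d, j + d ≤ len i → P (vt i (j + d)) := by
      intro d
      induction d with
      | zero => intro _; exact hp
      | succ d ih => intro hd; exact (hstep i (j + d) hi (by omega) (by omega) (ih (by omega))).2
    have hdown : ∀ d, d ≤ j → P (vt i (j - d)) := by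
      intro d
      induction d with
      | zero => intro _; exact hp
      | succ d ih => intro hd; exact (hstep i (j - d) hi (by omega) (by omega) (ih (by omega))).1
    intro j' hj'
    rcases le_total j j' with h1 | h1
    · have := hup (j' - j) (by omega)
      rwa [show j + (j' - j) = j' by omega] at this
    · have := hdown (j - j') (by omega)
      rwa [show j - (j - j') = j' by omega] at this
  have hhub : ∃ i, i < m ∧ P (vt i 0) := by
    obtain ⟨i, j, hi, hj, he⟩ := h.surj (g 0)
    have hp : P (vt i j) := ⟨0, he⟩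
    rcases Nat.eq_zero_or_pos j with h0 | h0
    · exact ⟨i, hi, h0 ▸ hp⟩
    rcases hj.lt_or_eq with h1 | h1
    · exact ⟨i, hi, hwhole i j hi h0 h1 hp 0 (by omega)⟩
    obtain ⟨a, -, -, ha, -, hpa, -⟩ := htwo _ hp
    obtain ⟨i', j', hi', hj', ⟨h2, h3⟩ | ⟨h2, h3⟩⟩ := theta_adj_cases ha
    · have := h.inj _ _ _ _ hi hi' (by omega) (by omega) h2
      rcases this with h4 | h4 | ⟨rfl, h4⟩ <;> omega
    · have h5 := h.inj _ _ _ _ hi hi' (by omega) (by omega) h3
      have h6 := h.two i' hi'
      have h7 : j' + 1 = len i' := by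
        rcases h5 with h4 | h4 | ⟨rfl, h4⟩ <;> omega
      exact ⟨i', hi', hwhole i' j' hi' (by omega) hj' (h2 ▸ hpa) 0 (by omega)⟩
  obtain ⟨i0, hi0, hp0⟩ := hhub
  have hn0 : ∀ u, (thetaGraph m len vt).Adj (vt i0 0) u → ∃ i, i < m ∧ u = vt i 1 := by
    intro u hu
    have h6 := h.two i0 hi0
    obtain ⟨i', j', hi', hj', ⟨h1, h2⟩ | ⟨h1, h2⟩⟩ := theta_adj_cases hu
    · have := h.inj _ _ _ _ hi0 hi' (by omega) (by omega) h1
      obtain rfl : j' = 0 := by omega
      exact ⟨i', hi', h2⟩
    · have := h.inj _ _ _ _ hi0 hi' (by omega) (by omega) h2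
      omega
  obtain ⟨a, b, hab, ha, hb, hpa, hpb⟩ := htwo _ hp0
  obtain ⟨i, hi, rfl⟩ := hn0 a ha
  obtain ⟨i', hi', rfl⟩ := hn0 b hb
  have hii : i ≠ i' := by rintro rfl; exact hab rfl
  have t1 := h.two i hi
  have t2 := h.two i' hi'
  have w1 := hwhole i 1 hi (by omega) (by omega) hpa
  have w2 := hwhole i' 1 hi' (by omega) (by omega) hpb
  have hcard : (range (len i + len i')).card ≤ ((range c).image g).card := by
    apply card_le_card_of_injOn (fun k => if k < len i then vt i k else vt i' (k - len i + 1))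
    · intro k hk
      have hk' : k < len i + len i' := by simpa using hk
      have hp : P (if k < len i then vt i k else vt i' (k - len i + 1)) := by
        split_ifs with h1
        · exact w1 k (by omega)
        · exact w2 _ (by omega)
      obtain ⟨k', hk'⟩ := hp
      simp only [coe_image, Set.mem_image, mem_coe, mem_range]
      refine ⟨k' % c, Nat.mod_lt _ (by omega), ?_⟩
      rw [← hk', hinj]; simp
    · intro k hk k' hk' he
      have hk1 : k < len i + len i' := by simpa using hk
      have hk2 : k' < len i + len i' := by simpa using hk'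
      simp only [] at he
      split_ifs at he with h1 h2 h2
      · have := h.inj _ _ _ _ hi hi (by omega) (by omega) he; omega
      · have := h.inj _ _ _ _ hi hi' (by omega) (by omega) he; omega
      · have := h.inj _ _ _ _ hi' hi (by omega) (by omega) he; omega
      · have := h.inj _ _ _ _ hi' hi' (by omega) (by omega) he; omega
  have h8 := card_image_le (s := range c) (f := g)
  rw [card_range] at hcard h8
  have := hlen i i' hi hi' hii
  omega

/-- the cycle through paths `i` and `i'` -/
def cyc (len : ℕ → ℕ) (vt : ℕ → ℕ → V) (i i' k : ℕ) : V :=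
  if k ≤ len i then vt i k else vt i' (len i + len i' - k)

lemma Theta.cyc_adj (h : Theta m len vt) {i i' k : ℕ} (hi : i < m) (hi' : i' < m)
    (hk : k < len i + len i') :
    (thetaGraph m len vt).Adj (cyc len vt i i' k) (cyc len vt i i' (k + 1)) := by
  unfold cyc
  have t2 := h.two i' hi'
  split_ifs with h1 h2 h2
  · exact h.adj hi (by omega)
  · obtain rfl : k = len i := by omega
    rw [h.last i i' hi hi']
    have := (h.adj hi' (j := len i' - 1) (by omega)).symm
    rw [show len i' - 1 + 1 = len i' by omega] at this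
    rwa [show len i + len i' - (len i + 1) = len i' - 1 by omega]
  · omega
  · have := (h.adj hi' (j := len i + len i' - (k + 1)) (by omega)).symm
    rwa [show len i + len i' - (k + 1) + 1 = len i + len i' - k by omega] at this

lemma Theta.cyc_inj (h : Theta m len vt) {i i' k k' : ℕ} (hi : i < m) (hi' : i' < m)
    (hii : i ≠ i') (hk : k < len i + len i') (hk' : k' < len i + len i')
    (he : cyc len vt i i' k = cyc len vt i i' k') : k = k' := by
  unfold cyc at he
  split_ifs at he with h1 h2 h2
  · have := h.inj _ _ _ _ hi hi (by omega) (by omega) he; omega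
  · have := h.inj _ _ _ _ hi hi' (by omega) (by omega) he; omega
  · have := h.inj _ _ _ _ hi' hi (by omega) (by omega) he; omega
  · have := h.inj _ _ _ _ hi' hi' (by omega) (by omega) he; omega

lemma Theta.cyc_end (h : Theta m len vt) {i i' : ℕ} (hi : i < m) (hi' : i' < m) :
    cyc len vt i i' (len i + len i') = cyc len vt i i' 0 := by
  have t2 := h.two i' hi'
  unfold cyc
  rw [if_neg (by omega), if_pos (by omega), Nat.sub_self]
  exact h.zero _ _ hi' hi

lemma Theta.arc (h : Theta m len vt) {I : Set ℕ} {G : SimpleGraph V}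
    (hle : thetaGraph m len vt ≤ G) (hfree : ¬ HasCycleIn I G) {i i' p q : ℕ}
    (hi : i < m) (hi' : i' < m) (hii : i ≠ i') (hpq : p < q) (hq : q < len i + len i')
    (ha : G.Adj (cyc len vt i i' p) (cyc len vt i i' q)) :
    q - p + 1 ∉ I ∧ len i + len i' - (q - p) + 1 ∉ I := by
  constructor
  · intro hI
    refine hfree ⟨_, hI, ?_⟩
    apply cycle_of_path (f := fun k => cyc len vt i i' (p + k))
    · refine ⟨fun k hk => hle (h.cyc_adj hi hi' (by omega)), fun k k' hk hk' he => ?_⟩
      have := h.cyc_inj hi hi' hii (by omega) (by omega) he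
      omega
    · rw [show p + (q - p) = q by omega]; exact ha.symm
  · intro hI
    refine hfree ⟨_, hI, ?_⟩
    apply cycle_of_path (f := fun k => cyc len vt i i'
      (if q + k < len i + len i' then q + k else q + k - (len i + len i')))
    · refine ⟨fun k hk => hle ?_, fun k k' hk hk' he => ?_⟩
      · split_ifs with h1 h2 h2
        · exact h.cyc_adj hi hi' h1
        · rw [show q + (k + 1) - (len i + len i') = 0 by omega, ← h.cyc_end hi hi']
          have := h.cyc_adj hi hi' h1
          rwa [show q + k + 1 = len i + len i' by omega] at this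
        · omega
        · rw [show q + (k + 1) - (len i + len i') = q + k - (len i + len i') + 1 by omega]
          exact h.cyc_adj hi hi' (by omega)
      · have := h.cyc_inj hi hi' hii (by split_ifs <;> omega) (by split_ifs <;> omega) he
        split_ifs at this <;> omega
    · rw [if_neg (by omega), if_pos (by omega),
        show q + (len i + len i' - (q - p)) - (len i + len i') = p by omega]
      exact ha

lemma Theta.same (h : Theta m len vt) {I : Set ℕ} {G : SimpleGraph V}
    (hle : thetaGraph m len vt ≤ G) (hfree : ¬ HasCycleIn I G) {i i' j j' : ℕ}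
    (hi : i < m) (hi' : i' < m) (hii : i ≠ i') (hj : j < j') (hj' : j' ≤ len i)
    (ha : G.Adj (vt i j) (vt i j')) : len i + len i' - (j' - j) + 1 ∉ I := by
  have t2 := h.two i' hi'
  refine (h.arc hle hfree hi hi' hii hj (by omega) ?_).2
  unfold cyc
  rwa [if_pos (by omega), if_pos (by omega)]

lemma Theta.diff (h : Theta m len vt) {I : Set ℕ} {G : SimpleGraph V}
    (hle : thetaGraph m len vt ≤ G) (hfree : ¬ HasCycleIn I G) {i i' j j' : ℕ}
    (hi : i < m) (hi' : i' < m) (hii : i ≠ i') (hj : j ≤ len i) (h0 : 0 < j') (hj' : j' < len i')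
    (ha : G.Adj (vt i j) (vt i' j')) :
    len i + len i' - j' - j + 1 ∉ I ∧ j + j' + 1 ∉ I := by
  have := h.arc hle hfree (p := j) (q := len i + len i' - j') hi hi' hii (by omega) (by omega) (by
    unfold cyc
    rwa [if_pos (by omega), if_neg (by omega),
      show len i + len i' - (len i + len i' - j') = j' by omega])
  rwa [show len i + len i' - (len i + len i' - j' - j) = j + j' by omega] at this

end

lemma exists_theta (m : ℕ) (len : ℕ → ℕ) (hm : 0 < m) (h2 : ∀ i, i < m → 2 ≤ len i) (n : ℕ)
    (hn : n = 2 + ∑ i ∈ range m, (len i - 1)) : ∃ vt : ℕ → ℕ → Fin n, Theta m len vt := by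
  classical
  let T : Finset (Σ _ : ℕ, ℕ) := (range m).sigma (fun i => Ioo 0 (len i))
  let S : Finset (Σ _ : ℕ, ℕ) := insert ⟨0, 0⟩ (insert ⟨1, 0⟩ T)
  have hS : S.card = n := by
    rw [card_insert_of_notMem (by simp [T]), card_insert_of_notMem (by simp [T]), card_sigma, hn]
    simp only [Nat.card_Ioo, Nat.sub_zero]
    omega
  let e := S.equivFinOfCardEq hS
  let code : ℕ → ℕ → (Σ _ : ℕ, ℕ) := fun i j =>
    if j = 0 then ⟨0, 0⟩ else if j < len i then ⟨i, j⟩ else ⟨1, 0⟩
  have hcode : ∀ i j, i < m → code i j ∈ S := by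
    intro i j hi
    simp only [code]
    split_ifs with h1 h3
    · simp [S]
    · simp only [S, T, mem_insert, mem_sigma, mem_range, mem_Ioo]
      right; right; omega
    · simp [S]
  let vt : ℕ → ℕ → Fin n := fun i j =>
    if h : i < m then e ⟨code i j, hcode i j h⟩ else e ⟨⟨0, 0⟩, by simp [S]⟩
  have hvt : ∀ i j (h : i < m), vt i j = e ⟨code i j, hcode i j h⟩ := by
    intro i j h; simp only [vt, dif_pos h]
  refine ⟨vt, h2, ?_, ?_, ?_, ?_⟩
  · intro i i' hi hi'
    rw [hvt _ _ hi, hvt _ _ hi']
    simp [code]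
  · intro i i' hi hi'
    rw [hvt _ _ hi, hvt _ _ hi']
    have t1 := h2 i hi
    have t2 := h2 i' hi'
    congr 2
    simp only [code]
    rw [if_neg (by omega), if_neg (by omega), if_neg (by omega), if_neg (by omega)]
  · intro i j i' j' hi hi' hj hj' he
    rw [hvt _ _ hi, hvt _ _ hi'] at he
    have h3 : code i j = code i' j' := congrArg Subtype.val (e.injective he)
    simp only [code] at h3
    split_ifs at h3 <;> simp only [Sigma.mk.injEq, heq_eq_eq] at h3 <;> omega
  · intro v
    obtain ⟨⟨x, hx⟩, rfl⟩ := e.surjective v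
    have t0 := h2 0 hm
    have hx' := hx
    simp only [S, T, mem_insert, mem_sigma, mem_range, mem_Ioo] at hx'
    rcases hx' with rfl | rfl | ⟨h3, h4, h5⟩
    · exact ⟨0, 0, hm, by omega, by rw [hvt _ _ hm]; simp [code]⟩
    · refine ⟨0, len 0, hm, le_rfl, ?_⟩
      rw [hvt _ _ hm]
      congr 2
      simp only [code]
      rw [if_neg (by omega), if_neg (by omega)]
    · refine ⟨x.1, x.2, h3, h5.le, ?_⟩
      rw [hvt _ _ h3]
      congr 2
      simp only [code]
      rw [if_neg (by omega), if_pos h5]

/-- weak Erdos-Gallai bound inside the neighbourhood of a vertex -/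
lemma card_edges_in_nbhd [Fintype V] [DecidableEq V] {G : SimpleGraph V} [DecidableRel G.Adj]
    {s : ℕ} (hs : 3 ≤ s) (hfree : ¬ (cycleGraph s).IsContained G) (h : V) (A : Finset V)
    (hA : ∀ v ∈ A, G.Adj h v) :
    (G.edgeFinset.filter (fun e => ∀ v ∈ e, v ∈ A)).card ≤ s * A.card := by
  induction A using Finset.strongInduction with
  | H A ih =>
  rcases A.eq_empty_or_nonempty with rfl | ⟨v0, hv0⟩
  · have : G.edgeFinset.filter (fun e => ∀ v ∈ e, v ∈ (∅ : Finset V)) = ∅ := by
      apply filter_eq_empty_iff.mpr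
      intro e _ he
      induction e using Sym2.ind with
      | h x y => exact notMem_empty _ (he x (Sym2.mem_mk_left x y))
    rw [this]; simp
  by_cases hlow : ∃ v ∈ A, (A.filter (G.Adj v)).card ≤ s
  · obtain ⟨v, hv, hvs⟩ := hlow
    have h1 := ih (A.erase v) (erase_ssubset hv) (fun u hu => hA u (mem_of_mem_erase hu))
    have h2 : G.edgeFinset.filter (fun e => ∀ u ∈ e, u ∈ A) ⊆
        G.edgeFinset.filter (fun e => ∀ u ∈ e, u ∈ A.erase v) ∪
          (A.filter (G.Adj v)).image (fun u => s(v, u)) := by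
      intro e he
      induction e using Sym2.ind with
      | h x y =>
        obtain ⟨he1, he2⟩ := mem_filter.mp he
        have hxy : G.Adj x y := by simpa using he1
        have hx := he2 x (Sym2.mem_mk_left x y)
        have hy := he2 y (Sym2.mem_mk_right x y)
        rw [mem_union]
        by_cases hxv : x = v
        · subst hxv
          exact Or.inr (mem_image.mpr ⟨y, mem_filter.mpr ⟨hy, hxy⟩, rfl⟩)
        by_cases hyv : y = v
        · subst hyv
          exact Or.inr (mem_image.mpr ⟨x, mem_filter.mpr ⟨hx, hxy.symm⟩, Sym2.eq_swap⟩)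
        refine Or.inl (mem_filter.mpr ⟨he1, fun u hu => ?_⟩)
        rcases Sym2.mem_iff.mp hu with rfl | rfl
        · exact mem_erase.mpr ⟨hxv, hx⟩
        · exact mem_erase.mpr ⟨hyv, hy⟩
    have h3 := (card_le_card h2).trans (card_union_le _ _)
    have h4 := card_image_le (s := A.filter (G.Adj v)) (f := fun u => s(v, u))
    have h5 := card_erase_add_one hv
    rw [← h5, mul_add, mul_one]
    omega
  · exfalso
    push Not at hlow
    have hpath : ∀ k, k ≤ s → ∃ f : ℕ → V, PathOf G f k ∧ ∀ i, i ≤ k → f i ∈ A := by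
      intro k
      induction k with
      | zero =>
        intro _
        exact ⟨fun _ => v0, ⟨fun i hi => by omega, fun i j hi hj _ => by omega⟩, fun _ _ => hv0⟩
      | succ k ihk =>
        intro hk
        obtain ⟨f, hf, hfA⟩ := ihk (by omega)
        have h1 := hlow (f k) (hfA k le_rfl)
        have h2 := card_image_le (s := range (k + 1)) (f := f)
        rw [card_range] at h2
        obtain ⟨u, hu1, hu2⟩ := exists_mem_notMem_of_card_lt_card
          (s := (range (k + 1)).image f) (t := A.filter (G.Adj (f k))) (by omega)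
        obtain ⟨huA, hadj⟩ := mem_filter.mp hu1
        have hu3 : ∀ i, i ≤ k → f i ≠ u := fun i hi he =>
          hu2 (mem_image.mpr ⟨i, mem_range.mpr (by omega), he⟩)
        refine ⟨fun q => if q ≤ k then f q else u, ⟨fun i hi => ?_, fun i j hi hj hij => ?_⟩,
          fun i hi => ?_⟩
        · by_cases h3 : i < k
          · rw [if_pos (by omega), if_pos (by omega)]; exact hf.adj i h3
          · rw [if_pos (by omega), if_neg (by omega), show i = k by omega]; exact hadj
        · by_cases h3 : i ≤ k <;> by_cases h4 : j ≤ k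
          · rw [if_pos h3, if_pos h4] at hij; exact hf.inj _ _ h3 h4 hij
          · rw [if_pos h3, if_neg h4] at hij; exact absurd hij (hu3 i h3)
          · rw [if_neg h3, if_pos h4] at hij; exact absurd hij.symm (hu3 j h4)
          · omega
        · beta_reduce
          split_ifs with h3
          · exact hfA i h3
          · exact huA
    obtain ⟨f, hf, hfA⟩ := hpath (s - 2) (by omega)
    apply hfree
    have hne : ∀ i, i ≤ s - 2 → f i ≠ h := fun i hi he => (hA _ (hfA i hi)).ne he.symm
    have := cycle_of_path (G := G) (f := fun q => if q ≤ s - 2 then f q else h) (k := s - 2 + 1)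
      ⟨fun i hi => ?_, fun i j hi hj hij => ?_⟩ ?_
    · rwa [show s - 2 + 1 + 1 = s by omega] at this
    · by_cases h3 : i < s - 2
      · rw [if_pos (by omega), if_pos (by omega)]; exact hf.adj i h3
      · rw [if_pos (by omega), if_neg (by omega)]; exact (hA _ (hfA i (by omega))).symm
    · by_cases h3 : i ≤ s - 2 <;> by_cases h4 : j ≤ s - 2
      · rw [if_pos h3, if_pos h4] at hij; exact hf.inj _ _ h3 h4 hij
      · rw [if_pos h3, if_neg h4] at hij; exact absurd hij (hne i h3)
      · rw [if_neg h3, if_pos h4] at hij; exact absurd hij.symm (hne j h4)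
      · omega
    · rw [if_neg (by omega), if_pos (by omega)]; exact hA _ (hfA 0 (by omega))

end Pool.Agent.Lib.MP_0fee77_co
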