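import Pool.Agent.Lib.MP_0fee77_co.Theta

set_option autoImplicit false

open SimpleGraph Finset

namespace Pool.Agent.Lib.MP_0fee77_co

variable {V : Type}

lemma card_edges_le [Fintype V] {m s r L t : ℕ} {len : ℕ → ℕ} {vt : ℕ → ℕ → V}
    (h : Theta m len vt) (hm : 2 ≤ m) (hs : 4 ≤ s) (hsL : 2 * s ≤ L) (hr1 : r + 1 ≤ 2 * L)
    (hr2 : 2 * L ≤ r + 2) (ht : t + 2 ≤ L) (h0 : len 0 = r + 1 - L) (h1 : len 1 = L + t)
    (h2 : ∀ i, 2 ≤ i → len i = L) {G : SimpleGraph V} (hle : thetaGraph m len vt ≤ G)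
    (hfree : ¬ HasCycleIn (Set.Icc s r) G) :
    G.edgeSet.ncard ≤ m * (L + 8 * s * s + 2 * s) + (4 * L) * (4 * L) := by
  classical
  have hnc : G.edgeSet.ncard = G.edgeFinset.card := by
    rw [← G.coe_edgeFinset, Set.ncard_coe_finset]
  rw [hnc]
  set E1 : Finset (Sym2 V) :=
    (range m ×ˢ range L).image (fun p => s(vt p.1 p.2, vt p.1 (p.2 + 1))) with hE1
  set S : Finset V := (range 2 ×ˢ range (2 * L)).image (fun p => vt p.1 p.2) with hS
  set E2 : Finset (Sym2 V) := (S ×ˢ S).image (fun p => s(p.1, p.2)) with hE2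
  set Nr : ℕ → Finset V := fun k => (range k ×ˢ range s).image (fun p => vt p.1 p.2) ∪
    (range k ×ˢ range s).image (fun p => vt p.1 (len p.1 - p.2)) with hNr
  set E3 : Finset (Sym2 V) := (Nr 2 ×ˢ Nr m).image (fun p => s(p.1, p.2)) with hE3
  set A1 : Finset V := (range m).image (fun i => vt i 1) with hA1
  set B1 : Finset V := (range m).image (fun i => vt i (len i - 1)) with hB1
  set E4 := G.edgeFinset.filter (fun e => ∀ v ∈ e, v ∈ A1) with hE4
  set E5 := G.edgeFinset.filter (fun e => ∀ v ∈ e, v ∈ B1) with hE5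
  have hfs : ¬ (cycleGraph s).IsContained G := fun hc =>
    hfree ⟨s, ⟨le_rfl, by omega⟩, hc⟩
  have c1 : E1.card ≤ m * L := by
    refine card_image_le.trans ?_
    simp
  have cS : S.card ≤ 4 * L := by
    refine card_image_le.trans ?_
    simp only [card_product, card_range]; omega
  have c2 : E2.card ≤ (4 * L) * (4 * L) := by
    refine card_image_le.trans ?_
    rw [card_product]; exact Nat.mul_le_mul cS cS
  have cN : ∀ k, (Nr k).card ≤ 2 * (k * s) := by
    intro k
    refine (card_union_le _ _).trans ?_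
    have a1 := card_image_le (s := range k ×ˢ range s) (f := fun p => vt p.1 p.2)
    have a2 := card_image_le (s := range k ×ˢ range s) (f := fun p => vt p.1 (len p.1 - p.2))
    simp only [card_product, card_range] at a1 a2
    omega
  have c3 : E3.card ≤ (2 * (2 * s)) * (2 * (m * s)) := by
    refine card_image_le.trans ?_
    rw [card_product]; exact Nat.mul_le_mul (cN 2) (cN m)
  have c4 : E4.card ≤ s * m := by
    refine (card_edges_in_nbhd (by omega) hfs (vt 0 0) A1 ?_).trans (Nat.mul_le_mul_left _ ?_)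
    · intro v hv
      obtain ⟨i, hi, rfl⟩ := mem_image.mp hv
      have hi' := mem_range.mp hi
      have := h.two i hi'
      rw [h.zero 0 i (by omega) hi']
      exact hle (h.adj hi' (by omega))
    · exact card_image_le.trans (by simp)
  have c5 : E5.card ≤ s * m := by
    refine (card_edges_in_nbhd (by omega) hfs (vt 0 (len 0)) B1 ?_).trans
      (Nat.mul_le_mul_left _ ?_)
    · intro v hv
      obtain ⟨i, hi, rfl⟩ := mem_image.mp hv
      have hi' := mem_range.mp hi
      have := h.two i hi'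
      rw [h.last 0 i (by omega) hi']
      have h3 := (h.adj hi' (j := len i - 1) (by omega)).symm
      rw [show len i - 1 + 1 = len i by omega] at h3
      exact hle h3
    · exact card_image_le.trans (by simp)
  set E := E1 ∪ (E2 ∪ (E3 ∪ (E4 ∪ E5))) with hE
  have hlen2 : ∀ i, i < 2 → len i < 2 * L ∧ L ≤ len i + 1 := by
    intro i hi
    obtain rfl | rfl : i = 0 ∨ i = 1 := by omega
    · omega
    · omega
  have memN : ∀ k i j, i < k → j ≤ len i → (j < s ∨ len i - j < s) → vt i j ∈ Nr k := by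
    intro k i j hi hj hc
    rcases hc with hc | hc
    · exact mem_union_left _ (mem_image.mpr ⟨(i, j), by simp [hi, hc], rfl⟩)
    · refine mem_union_right _ (mem_image.mpr ⟨(i, len i - j), by simp [hi, hc], ?_⟩)
      simp only []
      rw [show len i - (len i - j) = j by omega]
  have K1 : ∀ i j j', 2 ≤ i → i < m → j < j' → j' ≤ len i → G.Adj (vt i j) (vt i j') →
      s(vt i j, vt i j') ∈ E := by
    intro i j j' hi2 hi hj hj' ha
    have a1 := h.same hle hfree (i' := 0) hi (by omega) (by omega) hj hj' ha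
    have a2 := h2 i hi2
    rw [Set.mem_Icc] at a1
    obtain rfl : j' = j + 1 := by omega
    exact mem_union_left _ (mem_image.mpr ⟨(i, j), by simp [hi]; omega, rfl⟩)
  have K1' : ∀ i j j', 2 ≤ i → i < m → j ≤ len i → j' ≤ len i → G.Adj (vt i j) (vt i j') →
      s(vt i j, vt i j') ∈ E := by
    intro i j j' hi2 hi hj hj' ha
    rcases lt_trichotomy j j' with h3 | rfl | h3
    · exact K1 i j j' hi2 hi h3 hj' ha
    · exact absurd rfl ha.ne
    · rw [Sym2.eq_swap]; exact K1 i j' j hi2 hi h3 hj ha.symm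
  have K2 : ∀ i j i' j', i < 2 → i' < 2 → j ≤ len i → j' ≤ len i' →
      s(vt i j, vt i' j') ∈ E := by
    intro i j i' j' hi hi' hj hj'
    have a1 := hlen2 i hi
    have a2 := hlen2 i' hi'
    refine mem_union_right _ (mem_union_left _ (mem_image.mpr ⟨(vt i j, vt i' j'), ?_, rfl⟩))
    refine mem_product.mpr ⟨mem_image.mpr ⟨(i, j), ?_, rfl⟩, mem_image.mpr ⟨(i', j'), ?_, rfl⟩⟩
    · simp only [mem_product, mem_range]; omega
    · simp only [mem_product, mem_range]; omega
  have K3 : ∀ i j i' j', i < 2 → 2 ≤ i' → i' < m → j ≤ len i → 0 < j' → j' < len i' →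
      G.Adj (vt i j) (vt i' j') → s(vt i j, vt i' j') ∈ E := by
    intro i j i' j' hi hi2 hi' hj hj0 hj' ha
    have a1 := h.diff hle hfree (by omega) hi' (by omega) hj hj0 hj' ha
    have a2 := h2 i' hi2
    have a3 : len i ≤ L + t := by
      obtain rfl | rfl : i = 0 ∨ i = 1 := by omega
      · omega
      · omega
    simp only [Set.mem_Icc] at a1
    refine mem_union_right _ (mem_union_right _ (mem_union_left _
      (mem_image.mpr ⟨(vt i j, vt i' j'), ?_, rfl⟩)))
    exact mem_product.mpr ⟨memN 2 i j hi hj (by omega), memN m i' j' hi' hj'.le (by omega)⟩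
  have K4 : ∀ i j i' j', 2 ≤ i → i < m → 2 ≤ i' → i' < m → i ≠ i' → 0 < j → j < len i →
      0 < j' → j' < len i' → G.Adj (vt i j) (vt i' j') → s(vt i j, vt i' j') ∈ E := by
    intro i j i' j' hi2 hi hi2' hi' hii hj0 hj hj0' hj' ha
    have a1 := h.diff hle hfree hi hi' hii hj.le hj0' hj' ha
    have a2 := h2 i hi2
    have a3 := h2 i' hi2'
    simp only [Set.mem_Icc] at a1
    refine mem_union_right _ (mem_union_right _ (mem_union_right _ ?_))
    have a4 : (j = 1 ∧ j' = 1) ∨ (j = len i - 1 ∧ j' = len i' - 1) := by omega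
    rcases a4 with ⟨rfl, rfl⟩ | ⟨rfl, rfl⟩
    · refine mem_union_left _ (mem_filter.mpr ⟨by simpa using ha, fun v hv => ?_⟩)
      rcases Sym2.mem_iff.mp hv with rfl | rfl
      · exact mem_image.mpr ⟨i, mem_range.mpr hi, rfl⟩
      · exact mem_image.mpr ⟨i', mem_range.mpr hi', rfl⟩
    · refine mem_union_right _ (mem_filter.mpr ⟨by simpa using ha, fun v hv => ?_⟩)
      rcases Sym2.mem_iff.mp hv with rfl | rfl
      · exact mem_image.mpr ⟨i, mem_range.mpr hi, rfl⟩
      · exact mem_image.mpr ⟨i', mem_range.mpr hi', rfl⟩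
  have K5 : ∀ i j i' j', i < m → i' < m → (j = 0 ∨ j = len i) → j' ≤ len i' →
      G.Adj (vt i j) (vt i' j') → s(vt i j, vt i' j') ∈ E := by
    intro i j i' j' hi hi' hj hj' ha
    have a1 : ∃ j2, j2 ≤ len i' ∧ vt i j = vt i' j2 := by
      rcases hj with rfl | rfl
      · exact ⟨0, by omega, h.zero _ _ hi hi'⟩
      · exact ⟨len i', le_rfl, h.last _ _ hi hi'⟩
    obtain ⟨j2, hj2, he⟩ := a1
    rw [he] at ha ⊢
    rcases Nat.lt_or_ge i' 2 with h3 | h3
    · exact K2 _ _ _ _ h3 h3 hj2 hj'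
    · exact K1' _ _ _ h3 hi' hj2 hj' ha
  have hsub : G.edgeFinset ⊆ E := by
    intro e he
    induction e using Sym2.ind with
    | h x y =>
      have ha : G.Adj x y := by simpa using he
      obtain ⟨i, j, hi, hj, rfl⟩ := h.surj x
      obtain ⟨i', j', hi', hj', rfl⟩ := h.surj y
      by_cases hx : j = 0 ∨ j = len i
      · exact K5 _ _ _ _ hi hi' hx hj' ha
      by_cases hy : j' = 0 ∨ j' = len i'
      · rw [Sym2.eq_swap]; exact K5 _ _ _ _ hi' hi hy hj ha.symm
      rcases Nat.lt_or_ge i 2 with h3 | h3 <;> rcases Nat.lt_or_ge i' 2 with h4 | h4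
      · exact K2 _ _ _ _ h3 h4 hj hj'
      · exact K3 _ _ _ _ h3 h4 hi' hj (by omega) (by omega) ha
      · rw [Sym2.eq_swap]; exact K3 _ _ _ _ h4 h3 hi hj' (by omega) (by omega) ha.symm
      · by_cases hii : i = i'
        · subst hii; exact K1' _ _ _ h3 hi hj hj' ha
        · exact K4 _ _ _ _ h3 hi h4 hi' hii (by omega) (by omega) (by omega) (by omega) ha
  have d0 := card_le_card hsub
  have d1 := card_union_le E1 (E2 ∪ (E3 ∪ (E4 ∪ E5)))
  have d2 := card_union_le E2 (E3 ∪ (E4 ∪ E5))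
  have d3 := card_union_le E3 (E4 ∪ E5)
  have d4 := card_union_le E4 E5
  have d5 : m * (L + 8 * s * s + 2 * s) =
    m * L + (2 * (2 * s)) * (2 * (m * s)) + s * m + s * m := by ring
  rw [← hE] at d1
  omega

lemma sat_Icc_le {s r L n : ℕ} (hs : 4 ≤ s) (hsL : 2 * s ≤ L) (hr1 : r + 1 ≤ 2 * L)
    (hr2 : 2 * L ≤ r + 2) (hn : r + 1 ≤ n) :
    ∃ m', m' * (L - 1) ≤ n ∧
      sat n (Set.Icc s r) ≤ (m' + 2) * (L + 8 * s * s + 2 * s) + (4 * L) * (4 * L) := by
  obtain ⟨m', t, hdm, htl⟩ : ∃ m' t, m' * (L - 1) + t = n - (r + 1) ∧ t < L - 1 :=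
    ⟨_, _, Nat.div_add_mod' _ _, Nat.mod_lt _ (by omega)⟩
  let len : ℕ → ℕ := fun i => if i = 0 then r + 1 - L else if i = 1 then L + t else L
  have l0 : len 0 = r + 1 - L := by simp [len]
  have l1 : len 1 = L + t := by simp [len]
  have l2 : ∀ i, 2 ≤ i → len i = L := by
    intro i hi
    simp only [len]
    rw [if_neg (by omega), if_neg (by omega)]
  have lc : ∀ i, (i = 0 ∧ len i = r + 1 - L) ∨ (i ≠ 0 ∧ L ≤ len i) := by
    intro i
    simp only [len]
    split_ifs <;> omega
  obtain ⟨vt, hvt⟩ := exists_theta (m' + 2) len (by omega)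
    (fun i _ => by have := lc i; omega) n (by
      rw [sum_range_succ', sum_range_succ', l0, show 0 + 1 = 1 from rfl, l1,
        sum_congr rfl (g := fun _ => L - 1) (fun i _ => by rw [l2 _ (by omega)])]
      simp only [sum_const, card_range, smul_eq_mul]
      omega)
  have hfree := hvt.free (s := s) (r := r) (by omega) (fun i i' _ _ hii => by
    have := lc i; have := lc i'; omega)
  obtain ⟨G, hle, hG⟩ := exists_saturated_ge _ _ hfree
  refine ⟨m', by omega, (sat_le hG).trans ?_⟩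
  exact card_edges_le hvt (by omega) hs hsL hr1 hr2 (by omega) l0 l1 l2 hle hG.1

/-- for fixed `s` and `K`, all large `r` and then all large `n`:
`K * sat(n, C_[s,r]) ≤ (K+1) * n` -/
lemma sat_Icc_ratio (s K : ℕ) (hs : 4 ≤ s) :
    ∃ r0, ∀ r, r0 ≤ r → ∃ n0, ∀ n, n0 ≤ n → K * sat n (Set.Icc s r) ≤ (K + 1) * n := by
  set c := 8 * s * s + 2 * s with hc
  refine ⟨2 * (2 * K * (c + 1) + 1) + 4 * s, fun r hr => ?_⟩
  set L := (r + 2) / 2 with hL
  refine ⟨r + 1 + 2 * K * (2 * (L + c) + (4 * L) * (4 * L)), fun n hn => ?_⟩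
  obtain ⟨m', h1, h2⟩ := sat_Icc_le (s := s) (r := r) (L := L) (n := n) hs (by omega) (by omega)
    (by omega) (by omega)
  obtain ⟨L', hL'⟩ : ∃ L', L = L' + 1 := ⟨L - 1, by omega⟩
  have h3 : 2 * K * (c + 1) ≤ L' := by omega
  have h4 : m' * L' ≤ n := by rwa [hL', Nat.add_sub_cancel] at h1
  have h5 : m' * (2 * K * (c + 1)) ≤ n := (Nat.mul_le_mul_left _ h3).trans h4
  have h6 : 2 * K * (2 * (L + c) + (4 * L) * (4 * L)) ≤ n := by omega
  have h7 : (m' + 2) * (L + 8 * s * s + 2 * s) + (4 * L) * (4 * L) =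
      m' * L' + m' * (c + 1) + (2 * (L + c) + (4 * L) * (4 * L)) := by
    rw [hc]; nth_rewrite 1 [hL']; rw [hL']; ring
  rw [h7] at h2
  have h8 := Nat.mul_le_mul_left (2 * K) h2
  have h9 := Nat.mul_le_mul_left (2 * K) h4
  have h10 : 2 * K * (m' * L' + m' * (c + 1) + (2 * (L + c) + (4 * L) * (4 * L))) =
      2 * K * (m' * L') + m' * (2 * K * (c + 1)) +
        2 * K * (2 * (L + c) + (4 * L) * (4 * L)) := by ring
  nlinarith

end Pool.Agent.Lib.MP_0fee77_co
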